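import Pool.Agent.Helper58_ISO.Snc
import Pool.Agent.Helper58_NDF.Final
import Pool.Agent.Helper58_NDR.All

/-!
# Squad ISO, block B (helper58): `BmdStmt`
-/

set_option autoImplicit false

namespace Pool.Agent.ISO.H58

open MvPolynomial Pool.Agent.Helper30_Simp Pool.Agent.NDR Pool.Agent.Helper91_NDR
  Pool.Agent.Helper32_OMP Pool.Agent.Helper8_CR

/-- the product is not constant -/
theorem not_const {σ ι k : Type} [Field k] [Fintype ι] [Nonempty ι] (a : ι → ℕ)
    (ha : ∀ i, 0 < a i) (g : ι → MvPolynomial σ k) (hg : ∀ i, g i ≠ 0)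
    (hg1 : ∀ i, ∀ d : k, g i ≠ C d) {c : k} (hc : c ≠ 0) (d : k) :
    C c * ∏ i, g i ^ a i ≠ C d := by
  classical
  intro h
  have hne : (C c * ∏ i, g i ^ a i : MvPolynomial σ k) ≠ 0 := by
    refine mul_ne_zero ?_ (Finset.prod_ne_zero_iff.2 fun i _ => pow_ne_zero _ (hg i))
    rw [Ne, C_eq_zero]
    exact hc
  have hd : d ≠ 0 := by
    rintro rfl
    rw [C_0] at h
    exact hne h
  obtain ⟨i⟩ := (inferInstance : Nonempty ι)
  have h1 : g i ∣ C d := by
    rw [← h]
    exact Dvd.dvd.mul_left ((dvd_pow_self (g i) (ha i).ne').trans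
      (Finset.dvd_prod_of_mem (fun i => g i ^ a i) (Finset.mem_univ i))) _
  have h2 : IsUnit (C d : MvPolynomial σ k) := (IsUnit.mk0 d hd).map C
  have h3 : IsUnit (g i) := isUnit_of_dvd_unit h1 h2
  rw [isUnit_iff_eq_C_of_isReduced] at h3
  obtain ⟨u, _, hu⟩ := h3
  exact hg1 i u hu

theorem bmd : BmdStmt := by
  classical
  intro k _ _ σ _ _ r hr a ha P D hD hdeg hH
  have hchar : CharZero k := (RingHom.charZero_iff (algebraMap k ℂ).injective).2 inferInstance
  have hι : Nonempty (Fin r) := ⟨⟨0, hr⟩⟩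
  have hdeg' : ∀ i, ∀ β ∈ (P i).support, ∑ l, β l < D := by
    intro i β hβ
    have h1 := hdeg i β hβ
    rwa [Finsupp.degree_eq_sum] at h1
  have hHP : HP P D := by
    intro w hw J hJ h
    exact hH w hw J hJ (fun i hi => by
      obtain ⟨β, hβ, h1⟩ := h i hi
      refine ⟨β, hβ, fun l => ?_⟩
      rw [mul_comm]
      exact h1 l)
  obtain ⟨e, he0, hNF⟩ := fam P D hD hdeg' hHP
  have hmem : ∀ i l, Finsupp.single l D ∈ (gg P D e i).support := fun i l =>
    (mem_supp_gg P D hD e he0 hdeg' i _).2 (Or.inr ⟨l, rfl⟩)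
  obtain ⟨l1⟩ := (inferInstance : Nonempty σ)
  have hne : ∀ i, gg P D e i ≠ 0 := by
    intro i h
    have h1 := hmem i l1
    rw [h, support_zero] at h1
    exact Finset.notMem_empty _ h1
  have hnc : ∀ i, ∀ d : k, gg P D e i ≠ C d := by
    intro i d h
    have h1 := mem_support_iff.1 (hmem i l1)
    rw [h, coeff_C, if_neg] at h1
    · exact h1 rfl
    · intro h2
      have h3 := DFunLike.congr_fun h2 l1
      rw [Finsupp.single_eq_same] at h3
      change 0 = D at h3
      omega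
  refine ⟨gg P D e, fun i b hb => ?_, hne, ?_, fun c hc => ?_⟩
  · rw [coeff_gg]
    rintro l rfl
    rw [Finsupp.degree_single] at hb
    exact lt_irrefl _ hb
  · intro z hz
    refine snc _ hNF z fun i => ?_
    have hz1 : ∃ l, z l ≠ 0 := by
      by_contra hcon
      push Not at hcon
      apply hz 0 (Finset.mem_singleton_self 0)
      funext l
      rw [hcon l, Pi.zero_apply, map_zero]
    obtain ⟨l, hl⟩ := hz1
    refine ⟨_, hmem i l, ?_⟩
    rw [wz_zero]
    intro j hj
    rw [Finsupp.single_apply, if_neg]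
    rintro rfl
    exact hl hj
  · obtain ⟨Φ, hΦ⟩ := stab_iso (gg P D e) c a
    have hnd : Nondegenerate (GG c a (gg P D e)) :=
      Pool.Agent.GENF.H58.nondeg_of_all fun W => nd_all hc a ha _ hne hNF W
    exact (Pool.Agent.GENF.H58.final Pool.Agent.NDR.H58.rootsAll).1 k _ _ hnd σ
      (C c * ∏ i, gg P D e i ^ a i) (not_const a ha _ hne hnc hc) r Φ hΦ

end Pool.Agent.ISO.H58
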