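import Pool.Agent.Helper58_ISO.Sard
import Pool.Agent.Helper91_NDR.Pub

/-!
# Squad ISO, block B (helper58): choice of the generic coefficients

`p_i` are polynomials with exponents of degree `< D`, `g_i = p_i + ∑ e_il y_l^D`.
-/

set_option autoImplicit false

namespace Pool.Agent.ISO.H58

open MvPolynomial Pool.Agent.Helper30_Simp Pool.Agent.NDR Pool.Agent.Helper91_NDR

/-- choice of finitely many parameters one after the other -/
theorem choice {J S k : Type} [Field k] [Infinite k] [DecidableEq J] (F : Finset S)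
    (sp : S → Finset J) (P : S → (J → k) → Prop)
    (hloc : ∀ s c c', (∀ j ∈ sp s, c j = c' j) → P s c → P s c')
    (hfin : ∀ s ∈ F, ∀ j ∈ sp s, ∀ c, {t : k | ¬ P s (Function.update c j t)}.Finite)
    (Q : Finset J) :
    ∃ c : J → k, (∀ j, c j ≠ 0) ∧ ∀ s ∈ F, (sp s).Nonempty → sp s ⊆ Q → P s c := by
  classical
  induction Q using Finset.induction_on with
  | empty =>
    refine ⟨fun _ => 1, fun _ => one_ne_zero, fun s _ hs hsub => ?_⟩
    obtain ⟨j, hj⟩ := hs
    exact absurd (hsub hj) (Finset.notMem_empty j)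
  | insert j Q hj ih =>
    obtain ⟨c, hc0, hc⟩ := ih
    have hbad : ({0} ∪ ⋃ s ∈ F.filter (fun s => j ∈ sp s),
        {t : k | ¬ P s (Function.update c j t)}).Finite := by
      refine (Set.finite_singleton 0).union ?_
      refine Set.Finite.biUnion (Finset.finite_toSet _) fun s hs => ?_
      have hs' := Finset.mem_filter.1 (Finset.mem_coe.1 hs)
      exact hfin s hs'.1 j hs'.2 c
    obtain ⟨t, ht⟩ := hbad.exists_notMem
    have ht0 : t ≠ 0 := fun h => ht (Or.inl h)
    refine ⟨Function.update c j t, fun i => ?_, fun s hs hne hsub => ?_⟩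
    · by_cases hi : i = j
      · subst hi
        rw [Function.update_self]
        exact ht0
      · rw [Function.update_of_ne hi]
        exact hc0 i
    · by_cases hjs : j ∈ sp s
      · by_contra hP
        apply ht
        right
        rw [Set.mem_iUnion₂]
        exact ⟨s, Finset.mem_filter.2 ⟨hs, hjs⟩, hP⟩
      · refine hloc s c _ (fun i hi => ?_) (hc s hs hne fun i hi => ?_)
        · rw [Function.update_of_ne]
          rintro rfl
          exact hjs hi
        · rcases Finset.mem_insert.1 (hsub hi) with h | h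
          · subst h
            exact absurd hi hjs
          · exact h

section prt

variable {σ k : Type} [Field k]

theorem prt_add (f g : MvPolynomial σ k) (S : Finset (σ →₀ ℕ)) :
    prt (f + g) S = prt f S + prt g S := by
  unfold prt
  rw [← Finset.sum_add_distrib]
  refine Finset.sum_congr rfl fun α _ => ?_
  rw [coeff_add, map_add]

theorem prt_sub (f g : MvPolynomial σ k) (S : Finset (σ →₀ ℕ)) :
    prt (f - g) S = prt f S - prt g S := by
  unfold prt
  rw [← Finset.sum_sub_distrib]
  refine Finset.sum_congr rfl fun α _ => ?_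
  rw [coeff_sub, map_sub]

theorem prt_sum {ι : Type} (I : Finset ι) (f : ι → MvPolynomial σ k) (S : Finset (σ →₀ ℕ)) :
    prt (∑ i ∈ I, f i) S = ∑ i ∈ I, prt (f i) S := by
  unfold prt
  rw [Finset.sum_comm]
  refine Finset.sum_congr rfl fun α _ => ?_
  rw [coeff_sum, map_sum]

open scoped Classical in
theorem prt_monomial (α : σ →₀ ℕ) (c : k) (S : Finset (σ →₀ ℕ)) :
    prt (monomial α c) S = if α ∈ S then monomial α c else 0 := by
  unfold prt
  simp only [coeff_monomial]
  split_ifs with h
  · rw [Finset.sum_eq_single α]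
    · rw [if_pos rfl]
    · intro β _ hβ
      rw [if_neg (Ne.symm hβ), map_zero]
    · intro h1
      exact absurd h h1
  · refine Finset.sum_eq_zero fun β hβ => ?_
    rw [if_neg, map_zero]
    rintro rfl
    exact h hβ

theorem prt_empty (f : MvPolynomial σ k) : prt f ∅ = 0 := Finset.sum_empty

end prt

section model

variable {σ ι k : Type} [Field k] [Fintype σ] [Fintype ι]

/-- `g_i = p_i + ∑ e_il y_l^D` -/
noncomputable def gg (p : ι → MvPolynomial σ k) (D : ℕ) (e : ι × σ → k) (i : ι) :
    MvPolynomial σ k := p i + ∑ l, monomial (Finsupp.single l D) (e (i, l))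

/-- exponent of `y^β v_i` -/
noncomputable def vex (i : ι) (β : σ →₀ ℕ) : (σ ⊕ ι) →₀ ℕ :=
  Finsupp.mapDomain Sum.inl β + Finsupp.single (Sum.inr i) 1

/-- `∑ v_i (g_i restricted to S_i)` -/
noncomputable def LL (g : ι → MvPolynomial σ k) (S : ι → Finset (σ →₀ ℕ)) :
    MvPolynomial (σ ⊕ ι) k := ∑ i, X (Sum.inr i) * rename Sum.inl (prt (g i) (S i))

omit [Fintype σ] [Fintype ι] in
theorem rename_mul_X (i : ι) (β : σ →₀ ℕ) (c : k) :
    (X (Sum.inr i) : MvPolynomial (σ ⊕ ι) k) * rename Sum.inl (monomial β c) =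
      monomial (vex i β) c := by
  rw [rename_monomial, X, monomial_mul, one_mul]
  unfold vex
  rw [add_comm]

open scoped Classical in
/-- the generic parameters which occur in `S` -/
noncomputable def spp (D : ℕ) (S : ι → Finset (σ →₀ ℕ)) : Finset (ι × σ) :=
  Finset.univ.filter fun j => Finsupp.single j.2 D ∈ S j.1

theorem LL_eq (p : ι → MvPolynomial σ k) (D : ℕ) (e : ι × σ → k) (S : ι → Finset (σ →₀ ℕ)) :
    LL (gg p D e) S = LL p S +
      ∑ j ∈ spp D S, monomial (vex j.1 (Finsupp.single j.2 D)) (e j) := by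
  classical
  unfold LL gg spp
  rw [Finset.sum_filter, Fintype.sum_prod_type, ← Finset.sum_add_distrib]
  refine Finset.sum_congr rfl fun i _ => ?_
  rw [prt_add, prt_sum, map_add, mul_add, map_sum, Finset.mul_sum]
  congr 1
  refine Finset.sum_congr rfl fun l _ => ?_
  rw [prt_monomial]
  split_ifs
  · rw [rename_mul_X]
  · rw [map_zero, mul_zero]

theorem exists_generic [CharZero k] (p : ι → MvPolynomial σ k) (D : ℕ) :
    ∃ e : ι × σ → k, (∀ j, e j ≠ 0) ∧ ∀ S : ι → Finset (σ →₀ ℕ),
      (∀ i, ∀ β ∈ S i, β ∈ (p i).support ∨ ∃ l, β = Finsupp.single l D) →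
      (spp D S).Nonempty → TorusSmooth (LL (gg p D e) S) := by
  classical
  obtain ⟨e, he0, he⟩ := choice (J := ι × σ) (S := ι → Finset (σ →₀ ℕ)) (k := k)
    (Fintype.piFinset fun i => ((p i).support ∪ Finset.univ.image fun l =>
      Finsupp.single l D).powerset) (spp D) (fun S e => TorusSmooth (LL (gg p D e) S))
    (by
      intro S c c' h hP
      rw [LL_eq] at hP ⊢
      have h1 : ∑ j ∈ spp D S, monomial (vex j.1 (Finsupp.single j.2 D)) (c' j) =
          ∑ j ∈ spp D S, monomial (vex j.1 (Finsupp.single j.2 D)) (c j) :=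
        Finset.sum_congr rfl fun j hj => by rw [h j hj]
      rw [h1]
      exact hP)
    (by
      intro S _ j hj c
      have h1 := sard (k := k) (LL p S + ∑ i ∈ (spp D S).erase j,
        monomial (vex i.1 (Finsupp.single i.2 D)) (c i)) (vex j.1 (Finsupp.single j.2 D))
      refine h1.subset fun t ht => ?_
      intro h2
      apply ht
      rw [LL_eq, ← Finset.add_sum_erase _ _ hj, Function.update_self]
      have h3 : ∑ i ∈ (spp D S).erase j,
          monomial (vex i.1 (Finsupp.single i.2 D)) (Function.update c j t i) =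
          ∑ i ∈ (spp D S).erase j, monomial (vex i.1 (Finsupp.single i.2 D)) (c i) := by
        refine Finset.sum_congr rfl fun i hi => ?_
        rw [Function.update_of_ne (Finset.ne_of_mem_erase hi)]
      rw [h3]
      have h4 : ∀ a b c : MvPolynomial (σ ⊕ ι) k, a + (b + c) = a + c + b := fun a b c => by ring
      rw [h4]
      exact h2)
    Finset.univ
  refine ⟨e, he0, fun S hS hne => he S ?_ hne (Finset.subset_univ _)⟩
  rw [Fintype.mem_piFinset]
  intro i
  rw [Finset.mem_powerset]
  intro β hβ
  rw [Finset.mem_union, Finset.mem_image]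
  rcases hS i β hβ with h | ⟨l, h⟩
  · exact Or.inl h
  · exact Or.inr ⟨l, Finset.mem_univ l, h.symm⟩

end model

end Pool.Agent.ISO.H58
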