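import Pool.Agent.Helper58_ISO.Choice

/-!
# Squad ISO, block B (helper58): the family `g_i` has simple normal crossings on all faces
-/

set_option autoImplicit false

namespace Pool.Agent.ISO.H58

open MvPolynomial Pool.Agent.Helper30_Simp Pool.Agent.NDR Pool.Agent.Helper91_NDR

section fam

variable {σ ι k : Type} [Field k] [Fintype σ] [Fintype ι]

theorem mem_fcz {M : Finset (σ →₀ ℕ)} {w : σ → ℤ} {α : σ →₀ ℕ} :
    α ∈ fcz M w ↔ α ∈ M ∧ ∀ β ∈ M, wgt w α ≤ wgt w β := by
  unfold fcz wgt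
  rw [Finset.mem_filter]

theorem fcz_nonempty {M : Finset (σ →₀ ℕ)} (hM : M.Nonempty) (w : σ → ℤ) :
    (fcz M w).Nonempty := by
  obtain ⟨α, hα, h⟩ := Finset.exists_min_image M (wgt w) hM
  exact ⟨α, mem_fcz.2 ⟨hα, h⟩⟩

theorem wgt_single (w : σ → ℤ) (l : σ) (D : ℕ) : wgt w (Finsupp.single l D) = w l * D := by
  classical
  unfold wgt
  rw [Finset.sum_eq_single l]
  · rw [Finsupp.single_eq_same]
  · intro i _ hi
    rw [Finsupp.single_eq_of_ne hi]
    simp
  · intro h
    exact absurd (Finset.mem_univ l) h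

theorem coeff_gg (p : ι → MvPolynomial σ k) (D : ℕ) (e : ι × σ → k) (i : ι) (β : σ →₀ ℕ)
    (h : ∀ l, β ≠ Finsupp.single l D) : coeff β (gg p D e i) = coeff β (p i) := by
  classical
  unfold gg
  rw [coeff_add, coeff_sum, Finset.sum_eq_zero, add_zero]
  intro l _
  rw [coeff_monomial, if_neg (Ne.symm (h l))]

theorem coeff_gg_single (p : ι → MvPolynomial σ k) (D : ℕ) (hD : 0 < D) (e : ι × σ → k)
    (hdeg : ∀ i, ∀ β ∈ (p i).support, ∑ l, β l < D) (i : ι) (l : σ) :
    coeff (Finsupp.single l D) (gg p D e i) = e (i, l) := by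
  classical
  unfold gg
  rw [coeff_add, coeff_sum, Finset.sum_eq_single l]
  · rw [coeff_monomial, if_pos rfl]
    have h0 : coeff (Finsupp.single l D) (p i) = 0 := by
      by_contra h
      have h1 := hdeg i _ (mem_support_iff.2 h)
      rw [Finset.sum_eq_single l] at h1
      · rw [Finsupp.single_eq_same] at h1
        exact lt_irrefl _ h1
      · intro j _ hj
        rw [Finsupp.single_eq_of_ne hj]
      · intro h
        exact absurd (Finset.mem_univ l) h
    rw [h0, zero_add]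
  · intro j _ hj
    rw [coeff_monomial, if_neg]
    intro h
    rw [Finsupp.single_eq_single_iff] at h
    rcases h with h | h
    · exact hj h.1
    · omega
  · intro h
    exact absurd (Finset.mem_univ l) h

theorem mem_supp_gg (p : ι → MvPolynomial σ k) (D : ℕ) (hD : 0 < D) (e : ι × σ → k)
    (he : ∀ j, e j ≠ 0) (hdeg : ∀ i, ∀ β ∈ (p i).support, ∑ l, β l < D) (i : ι) (β : σ →₀ ℕ) :
    β ∈ (gg p D e i).support ↔ β ∈ (p i).support ∨ ∃ l, β = Finsupp.single l D := by
  by_cases h : ∃ l, β = Finsupp.single l D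
  · obtain ⟨l, rfl⟩ := h
    rw [mem_support_iff, coeff_gg_single p D hD e hdeg i l]
    exact ⟨fun _ => Or.inr ⟨l, rfl⟩, fun _ => he _⟩
  · have h1 : ∀ l, β ≠ Finsupp.single l D := fun l hl => h ⟨l, hl⟩
    rw [mem_support_iff, coeff_gg p D e i β h1, ← mem_support_iff]
    exact ⟨fun h2 => Or.inl h2, fun h2 => h2.resolve_right h⟩

/-- the hypothesis on the initial forms for positive weights -/
def HP (p : ι → MvPolynomial σ k) (D : ℕ) : Prop :=
  ∀ w : σ → ℤ, (∀ l, 0 < w l) → ∀ J : Finset ι, J.Nonempty →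
    (∀ i ∈ J, ∃ β ∈ (p i).support, ∀ l, wgt w β < w l * D) →
    TorusSmooth (∑ i ∈ J, (X (Sum.inr i) : MvPolynomial (σ ⊕ ι) k) *
      rename Sum.inl (initForm w (p i)))

/-- simple normal crossings of the initial forms in the torus, all weights -/
def NF (g : ι → MvPolynomial σ k) : Prop :=
  ∀ w : σ → ℤ, ∀ J : Finset ι, J.Nonempty →
    TorusSmooth (∑ i ∈ J, (X (Sum.inr i) : MvPolynomial (σ ⊕ ι) k) *
      rename Sum.inl (initForm w (g i)))

/-- **Step 1.** -/
theorem fam [CharZero k] [Nonempty σ] (p : ι → MvPolynomial σ k) (D : ℕ) (hD : 0 < D)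
    (hdeg : ∀ i, ∀ β ∈ (p i).support, ∑ l, β l < D) (hH : HP p D) :
    ∃ e : ι × σ → k, (∀ j, e j ≠ 0) ∧ NF (gg p D e) := by
  classical
  obtain ⟨e, he0, he⟩ := exists_generic p D
  refine ⟨e, he0, fun w J hJ => ?_⟩
  set S : ι → Finset (σ →₀ ℕ) := fun i => if i ∈ J then fcz (gg p D e i).support w else ∅ with hS
  have hLL : ∑ i ∈ J, (X (Sum.inr i) : MvPolynomial (σ ⊕ ι) k) *
      rename Sum.inl (initForm w (gg p D e i)) = LL (gg p D e) S := by
    unfold LL
    rw [← Finset.sum_subset (Finset.subset_univ J)]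
    · refine Finset.sum_congr rfl fun i hi => ?_
      rw [initForm_eq, hS]
      simp only [if_pos hi]
    · intro i _ hi
      rw [hS]
      simp only [if_neg hi]
      rw [prt_empty, map_zero, mul_zero]
  by_cases hne : (spp D S).Nonempty
  · rw [hLL]
    refine he S (fun i β hβ => ?_) hne
    rw [hS] at hβ
    dsimp only at hβ
    split_ifs at hβ with hi
    · exact (mem_supp_gg p D hD e he0 hdeg i β).1 (mem_fcz.1 hβ).1
    · exact absurd hβ (Finset.notMem_empty β)
  -- no generic parameter occurs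
  have hno : ∀ i ∈ J, ∀ l, Finsupp.single l D ∉ fcz (gg p D e i).support w := by
    intro i hi l hl
    apply hne
    refine ⟨(i, l), ?_⟩
    unfold spp
    rw [Finset.mem_filter]
    refine ⟨Finset.mem_univ _, ?_⟩
    rw [hS]
    simp only [if_pos hi]
    exact hl
  have hmem : ∀ i l, Finsupp.single l D ∈ (gg p D e i).support := fun i l =>
    (mem_supp_gg p D hD e he0 hdeg i _).2 (Or.inr ⟨l, rfl⟩)
  have hlt : ∀ i ∈ J, ∀ β ∈ fcz (gg p D e i).support w, ∀ l, wgt w β < w l * D := by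
    intro i hi β hβ l
    by_contra hcon
    apply hno i hi l
    rw [mem_fcz]
    refine ⟨hmem i l, fun γ hγ => ?_⟩
    rw [wgt_single]
    exact (not_lt.1 hcon).trans ((mem_fcz.1 hβ).2 γ hγ)
  have hold : ∀ i ∈ J, ∀ β ∈ fcz (gg p D e i).support w,
      β ∈ (p i).support ∧ ∀ l, β ≠ Finsupp.single l D := by
    intro i hi β hβ
    have h1 : ∀ l, β ≠ Finsupp.single l D := by
      rintro l rfl
      exact hno i hi l hβ
    rcases (mem_supp_gg p D hD e he0 hdeg i β).1 (mem_fcz.1 hβ).1 with h | ⟨l, h⟩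
    · exact ⟨h, h1⟩
    · exact absurd h (h1 l)
  obtain ⟨l1⟩ := (inferInstance : Nonempty σ)
  have hfne : ∀ i, (fcz (gg p D e i).support w).Nonempty := fun i => fcz_nonempty ⟨_, hmem i l1⟩ w
  -- all weights are positive
  have hpos : ∀ l, 0 < w l := by
    obtain ⟨i, hi⟩ := hJ
    obtain ⟨β, hβ⟩ := hfne i
    obtain ⟨l0, _, hl0⟩ := Finset.exists_min_image Finset.univ w ⟨l1, Finset.mem_univ _⟩
    have h0 : 0 < w l0 := by
      by_contra hcon
      have hcon' := not_lt.1 hcon
      have h1 := hlt i hi β hβ l0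
      have h2 := hdeg i β (hold i hi β hβ).1
      have h3 : w l0 * ((∑ l, β l : ℕ) : ℤ) ≤ wgt w β := by
        unfold wgt
        rw [Nat.cast_sum, Finset.mul_sum]
        refine Finset.sum_le_sum fun l _ => ?_
        exact mul_le_mul_of_nonneg_right (hl0 l (Finset.mem_univ l)) (Int.natCast_nonneg _)
      have h4 : w l0 * (D : ℤ) ≤ w l0 * ((∑ l, β l : ℕ) : ℤ) := by
        refine mul_le_mul_of_nonpos_left ?_ hcon'
        exact_mod_cast h2.le
      omega
    intro l
    exact lt_of_lt_of_le h0 (hl0 l (Finset.mem_univ l))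
  have hinit : ∀ i ∈ J, initForm w (gg p D e i) = initForm w (p i) := by
    intro i hi
    have hset : fcz (gg p D e i).support w = fcz (p i).support w := by
      obtain ⟨β0, hβ0⟩ := hfne i
      ext β
      constructor
      · intro hβ
        rw [mem_fcz]
        refine ⟨(hold i hi β hβ).1, fun γ hγ => (mem_fcz.1 hβ).2 γ ?_⟩
        exact (mem_supp_gg p D hD e he0 hdeg i γ).2 (Or.inl hγ)
      · intro hβ
        have hβ' := mem_fcz.1 hβ
        rw [mem_fcz]
        refine ⟨(mem_supp_gg p D hD e he0 hdeg i β).2 (Or.inl hβ'.1), fun γ hγ => ?_⟩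
        exact (hβ'.2 β0 (hold i hi β0 hβ0).1).trans ((mem_fcz.1 hβ0).2 γ hγ)
    rw [initForm_eq, initForm_eq]
    unfold prt
    rw [← hset]
    refine Finset.sum_congr rfl fun β hβ => ?_
    rw [coeff_gg p D e i β (hold i hi β hβ).2]
  have hfin := hH w hpos J hJ (fun i hi => by
    obtain ⟨β, hβ⟩ := hfne i
    exact ⟨β, (hold i hi β hβ).1, hlt i hi β hβ⟩)
  rw [Finset.sum_congr rfl fun i hi => by rw [hinit i hi]]
  exact hfin

end fam

end Pool.Agent.ISO.H58
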