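import Pool.Agent.Helper58_ISO.Fam

/-!
# Squad ISO, block B (helper58): `c ∏ u_i^(a_i) + ∑ v_i (u_i - g_i)` is nondegenerate
-/

set_option autoImplicit false

namespace Pool.Agent.ISO.H58

open MvPolynomial Pool.Agent.Helper30_Simp Pool.Agent.NDR Pool.Agent.Helper91_NDR

section ts

variable {σ τ k : Type} [Field k] [Fintype σ] [Fintype τ]

theorem ts_neg {g : MvPolynomial σ k} (h : TorusSmooth g) : TorusSmooth (-g) := by
  unfold TorusSmooth at h ⊢
  have h1 : Ideal.span ({g} ∪ Set.range fun j => pderiv j g) ≤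
      Ideal.span ({-g} ∪ Set.range fun j => pderiv j (-g)) := by
    rw [Ideal.span_le]
    rintro x (hx | ⟨j, rfl⟩)
    · rw [Set.mem_singleton_iff.1 hx]
      have h2 : -g ∈ Ideal.span ({-g} ∪ Set.range fun j => pderiv j (-g)) :=
        Ideal.subset_span (Or.inl rfl)
      exact (Ideal.neg_mem_iff _).1 h2
    · have h2 : pderiv j (-g) ∈ Ideal.span ({-g} ∪ Set.range fun j => pderiv j (-g)) :=
        Ideal.subset_span (Or.inr ⟨j, rfl⟩)
      rw [map_neg] at h2
      exact (Ideal.neg_mem_iff _).1 h2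
  exact Ideal.radical_mono h1 h

theorem ts_rename {g : MvPolynomial σ k} (φ : σ → τ) (hφ : Function.Injective φ)
    (h : TorusSmooth g) : TorusSmooth (rename φ g) := by
  classical
  unfold TorusSmooth at h ⊢
  have h1 : Ideal.map (rename φ : MvPolynomial σ k →ₐ[k] MvPolynomial τ k)
      (Ideal.span ({g} ∪ Set.range fun j => pderiv j g)) ≤
      Ideal.span ({rename φ g} ∪ Set.range fun j => pderiv j (rename φ g)) := by
    rw [Ideal.map_span, Ideal.span_le]
    rintro _ ⟨y, hy, rfl⟩
    rcases hy with hy | ⟨j, rfl⟩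
    · rw [Set.mem_singleton_iff.1 hy]
      exact Ideal.subset_span (Or.inl rfl)
    · refine Ideal.subset_span (Or.inr ⟨φ j, ?_⟩)
      exact pderiv_rename hφ j g
  obtain ⟨n, hn⟩ := h
  have h2 := h1 (Ideal.mem_map_of_mem _ hn)
  rw [map_pow, map_prod] at h2
  simp only [rename_X] at h2
  have h3 : (∏ i, X (φ i) : MvPolynomial τ k) ∈
      (Ideal.span ({rename φ g} ∪ Set.range fun j => pderiv j (rename φ g))).radical := ⟨n, h2⟩
  have h4 : (∏ i, X i : MvPolynomial τ k) = (∏ i, X (φ i)) *
      ∏ j ∈ Finset.univ \ Finset.univ.image φ, X j := by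
    rw [← Finset.prod_image (s := Finset.univ) (g := φ) (f := fun j => (X j : MvPolynomial τ k))
      (fun a _ b _ h => hφ h), ← Finset.prod_sdiff (Finset.subset_univ (Finset.univ.image φ)),
      mul_comm]
  rw [h4]
  exact Ideal.mul_mem_right _ _ h3

end ts

section nd

variable {σ ι k : Type} [Field k] [Fintype σ] [Fintype ι]

/-- exponent of `y^β v_i` -/
noncomputable def vx (i : ι) (β : σ →₀ ℕ) : (σ ⊕ (ι ⊕ ι)) →₀ ℕ :=
  Finsupp.mapDomain Sum.inl β + Finsupp.single (Sum.inr (Sum.inr i)) 1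

/-- exponent of `u_i v_i` -/
noncomputable def vu (i : ι) : (σ ⊕ (ι ⊕ ι)) →₀ ℕ :=
  Finsupp.single (Sum.inr (Sum.inl i)) 1 + Finsupp.single (Sum.inr (Sum.inr i)) 1

/-- exponent of `∏ u_i^(a_i)` -/
noncomputable def ux (a : ι → ℕ) : (σ ⊕ (ι ⊕ ι)) →₀ ℕ :=
  ∑ i, Finsupp.single (Sum.inr (Sum.inl i)) (a i)

/-- `c ∏ u_i^(a_i) + ∑ u_i v_i - ∑ v_i g_i` -/
noncomputable def GG (c : k) (a : ι → ℕ) (g : ι → MvPolynomial σ k) :
    MvPolynomial (σ ⊕ (ι ⊕ ι)) k :=
  monomial (ux a) c + ∑ i, monomial (vu i) 1 -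
    ∑ i, X (Sum.inr (Sum.inr i)) * rename Sum.inl (g i)

omit [Fintype σ] [Fintype ι] in
theorem vx_mul (i : ι) (β : σ →₀ ℕ) (c : k) :
    (X (Sum.inr (Sum.inr i)) : MvPolynomial (σ ⊕ (ι ⊕ ι)) k) * rename Sum.inl (monomial β c) =
      monomial (vx i β) c := by
  rw [rename_monomial, X, monomial_mul, one_mul]
  unfold vx
  rw [add_comm]

omit [Fintype σ] [Fintype ι] in
theorem vg_eq (i : ι) (g : MvPolynomial σ k) :
    (X (Sum.inr (Sum.inr i)) : MvPolynomial (σ ⊕ (ι ⊕ ι)) k) * rename Sum.inl g =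
      ∑ β ∈ g.support, monomial (vx i β) (coeff β g) := by
  conv_lhs => rw [← g.support_sum_monomial_coeff]
  rw [map_sum, Finset.mul_sum]
  exact Finset.sum_congr rfl fun β _ => vx_mul i β _

open scoped Classical in
/-- the section of `s` over `v_i` -/
noncomputable def sec (g : ι → MvPolynomial σ k) (s : Finset ((σ ⊕ (ι ⊕ ι)) →₀ ℕ)) (i : ι) :
    Finset (σ →₀ ℕ) := (g i).support.filter fun β => vx i β ∈ s

omit [Fintype σ] [Fintype ι] in
theorem prt_vg (g : ι → MvPolynomial σ k) (s : Finset ((σ ⊕ (ι ⊕ ι)) →₀ ℕ)) (i : ι) :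
    prt ((X (Sum.inr (Sum.inr i)) : MvPolynomial (σ ⊕ (ι ⊕ ι)) k) * rename Sum.inl (g i)) s =
      X (Sum.inr (Sum.inr i)) * rename Sum.inl (prt (g i) (sec g s i)) := by
  classical
  rw [vg_eq, prt_sum]
  unfold sec
  have h1 : prt (g i) ((g i).support.filter fun β => vx i β ∈ s) =
      ∑ β ∈ (g i).support.filter (fun β => vx i β ∈ s), monomial β (coeff β (g i)) := rfl
  rw [h1, map_sum, Finset.mul_sum, Finset.sum_filter]
  refine Finset.sum_congr rfl fun β _ => ?_
  rw [prt_monomial]
  split_ifs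
  · rw [vx_mul]
  · rfl

omit [Fintype σ] [Fintype ι] in
theorem vx_v (i j : ι) (β : σ →₀ ℕ) [Decidable (i = j)] :
    vx i β (Sum.inr (Sum.inr j)) = if i = j then 1 else 0 := by
  classical
  unfold vx
  rw [Finsupp.add_apply, Finsupp.mapDomain_of_notMem_range _ _ (by
    rintro ⟨x, hx⟩
    cases hx), zero_add, Finsupp.single_apply]
  by_cases h : i = j
  · subst h
    simp
  · rw [if_neg h, if_neg]
    intro h1
    exact h (Sum.inr_injective (Sum.inr_injective h1))

omit [Fintype σ] [Fintype ι] in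
theorem vx_u (i j : ι) (β : σ →₀ ℕ) : vx i β (Sum.inr (Sum.inl j)) = 0 := by
  classical
  unfold vx
  rw [Finsupp.add_apply, Finsupp.mapDomain_of_notMem_range _ _ (by
    rintro ⟨x, hx⟩
    cases hx), zero_add, Finsupp.single_apply, if_neg]
  intro h1
  cases Sum.inr_injective h1

omit [Fintype σ] [Fintype ι] in
theorem vx_y (i : ι) (β : σ →₀ ℕ) (l : σ) : vx i β (Sum.inl l) = β l := by
  classical
  unfold vx
  rw [Finsupp.add_apply, Finsupp.mapDomain_apply Sum.inl_injective, Finsupp.single_apply, if_neg,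
    add_zero]
  intro h1
  cases h1

omit [Fintype σ] [Fintype ι] in
theorem vx_inj {i j : ι} {β γ : σ →₀ ℕ} (h : vx i β = vx j γ) : i = j ∧ β = γ := by
  classical
  constructor
  · by_contra hij
    have h1 := DFunLike.congr_fun h (Sum.inr (Sum.inr i))
    rw [vx_v, vx_v, if_pos rfl, if_neg (Ne.symm hij)] at h1
    exact one_ne_zero h1
  · ext l
    have h1 := DFunLike.congr_fun h (Sum.inl l)
    rwa [vx_y, vx_y] at h1

omit [Fintype σ] in
theorem ux_v (a : ι → ℕ) (j : ι) : (ux a : (σ ⊕ (ι ⊕ ι)) →₀ ℕ) (Sum.inr (Sum.inr j)) = 0 := by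
  classical
  unfold ux
  rw [Finsupp.finsetSum_apply]
  refine Finset.sum_eq_zero fun i _ => ?_
  rw [Finsupp.single_apply, if_neg]
  intro h
  cases Sum.inr_injective h

omit [Fintype σ] in
theorem ux_u (a : ι → ℕ) (j : ι) : (ux a : (σ ⊕ (ι ⊕ ι)) →₀ ℕ) (Sum.inr (Sum.inl j)) = a j := by
  classical
  unfold ux
  rw [Finsupp.finsetSum_apply, Finset.sum_eq_single j]
  · rw [Finsupp.single_eq_same]
  · intro i _ hi
    rw [Finsupp.single_apply, if_neg]
    intro h
    exact hi (Sum.inl_injective (Sum.inr_injective h))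
  · intro h
    exact absurd (Finset.mem_univ j) h

omit [Fintype σ] [Fintype ι] in
theorem vu_u (i : ι) : (vu i : (σ ⊕ (ι ⊕ ι)) →₀ ℕ) (Sum.inr (Sum.inl i)) = 1 := by
  classical
  unfold vu
  rw [Finsupp.add_apply, Finsupp.single_eq_same, Finsupp.single_apply, if_neg, add_zero]
  intro h
  cases Sum.inr_injective h

omit [Fintype σ] in
theorem coeff_vx (c : k) (a : ι → ℕ) (g : ι → MvPolynomial σ k) (i : ι) (β : σ →₀ ℕ) :
    coeff (vx i β) (GG c a g) = - coeff β (g i) := by
  classical
  unfold GG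
  rw [coeff_sub, coeff_add, coeff_monomial, if_neg, coeff_sum, Finset.sum_eq_zero, add_zero,
    zero_sub, coeff_sum, Finset.sum_eq_single i]
  · congr 1
    rw [vg_eq, coeff_sum]
    by_cases hβ : β ∈ (g i).support
    · rw [Finset.sum_eq_single β]
      · rw [coeff_monomial, if_pos rfl]
      · intro γ _ hγ
        rw [coeff_monomial, if_neg]
        intro h
        exact hγ (vx_inj h).2
      · intro h
        exact absurd hβ h
    · rw [Finset.sum_eq_zero, notMem_support_iff.1 hβ]
      intro γ hγ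
      rw [coeff_monomial, if_neg]
      intro h
      rw [(vx_inj h).2] at hγ
      exact hβ hγ
  · intro j _ hj
    rw [vg_eq, coeff_sum]
    refine Finset.sum_eq_zero fun γ _ => ?_
    rw [coeff_monomial, if_neg]
    intro h
    exact hj (vx_inj h).1
  · intro h
    exact absurd (Finset.mem_univ i) h
  · intro j _
    rw [coeff_monomial, if_neg]
    intro h
    have h1 := DFunLike.congr_fun h (Sum.inr (Sum.inl j))
    rw [vu_u, vx_u] at h1
    exact one_ne_zero h1
  · intro h
    have h1 := DFunLike.congr_fun h (Sum.inr (Sum.inr i))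
    rw [ux_v, vx_v, if_pos rfl] at h1
    exact one_ne_zero h1.symm

theorem wgt_vx (W : σ ⊕ (ι ⊕ ι) → ℤ) (i : ι) (β : σ →₀ ℕ) :
    wgt W (vx i β) = wgt (fun l => W (Sum.inl l)) β + W (Sum.inr (Sum.inr i)) := by
  classical
  unfold wgt
  rw [Fintype.sum_sum_type, Fintype.sum_sum_type]
  have h1 : ∑ j : ι, W (Sum.inr (Sum.inl j)) * ((vx i β (Sum.inr (Sum.inl j)) : ℕ) : ℤ) = 0 := by
    refine Finset.sum_eq_zero fun j _ => ?_
    rw [vx_u]
    simp
  have h2 : ∑ j : ι, W (Sum.inr (Sum.inr j)) * ((vx i β (Sum.inr (Sum.inr j)) : ℕ) : ℤ) =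
      W (Sum.inr (Sum.inr i)) := by
    rw [Finset.sum_eq_single i]
    · rw [vx_v, if_pos rfl]
      simp
    · intro j _ hj
      rw [vx_v, if_neg (Ne.symm hj)]
      simp
    · intro h
      exact absurd (Finset.mem_univ i) h
  rw [h1, h2, zero_add]
  congr 1
  refine Finset.sum_congr rfl fun l _ => ?_
  rw [vx_y]

omit [Fintype σ] in
/-- the part of `GG` in the face `s` -/
theorem prt_GG (c : k) (a : ι → ℕ) (g : ι → MvPolynomial σ k)
    (s : Finset ((σ ⊕ (ι ⊕ ι)) →₀ ℕ)) [∀ α, Decidable (α ∈ s)] :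
    prt (GG c a g) s = (if ux a ∈ s then monomial (ux a) c else 0) +
      ∑ i, (if vu i ∈ s then monomial (vu i) 1 else 0) -
      ∑ i, X (Sum.inr (Sum.inr i)) * rename Sum.inl (prt (g i) (sec g s i)) := by
  classical
  unfold GG
  rw [prt_sub, prt_add, prt_sum, prt_sum, prt_monomial]
  congr 1
  · congr 1
    · split_ifs <;> rfl
    · refine Finset.sum_congr rfl fun i _ => ?_
      rw [prt_monomial]
      split_ifs <;> rfl
  · exact Finset.sum_congr rfl fun i _ => prt_vg g s i

omit [Fintype σ] [Fintype ι] in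
theorem pd_rename (j : ι ⊕ ι) (h : MvPolynomial σ k) :
    pderiv (Sum.inr j) (rename Sum.inl h : MvPolynomial (σ ⊕ (ι ⊕ ι)) k) = 0 := by
  classical
  refine pderiv_eq_zero_of_notMem_vars fun hm => ?_
  have h1 := vars_rename (Sum.inl : σ → σ ⊕ (ι ⊕ ι)) h hm
  rw [Finset.mem_image] at h1
  obtain ⟨x, _, hx⟩ := h1
  cases hx

omit [Fintype σ] [Fintype ι] in
theorem vu_mul (i : ι) : (monomial (vu i) 1 : MvPolynomial (σ ⊕ (ι ⊕ ι)) k) =
    X (Sum.inr (Sum.inl i)) * X (Sum.inr (Sum.inr i)) := by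
  unfold vu
  rw [X, X, monomial_mul, one_mul]

omit [Fintype σ] [Fintype ι] in
theorem pd_u_vu (i l : ι) [Decidable (i = l)] :
    pderiv (Sum.inr (Sum.inl l)) (monomial (vu i) 1 : MvPolynomial (σ ⊕ (ι ⊕ ι)) k) =
      if i = l then X (Sum.inr (Sum.inr i)) else 0 := by
  rw [vu_mul, Derivation.leibniz, smul_eq_mul, smul_eq_mul]
  have h1 : pderiv (Sum.inr (Sum.inl l)) (X (Sum.inr (Sum.inr i)) :
      MvPolynomial (σ ⊕ (ι ⊕ ι)) k) = 0 := by
    refine pderiv_X_of_ne ?_
    intro h
    cases Sum.inr_injective h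
  rw [h1, mul_zero, zero_add]
  by_cases h : i = l
  · subst h
    rw [if_pos rfl, pderiv_X_self, mul_one]
  · rw [if_neg h, pderiv_X_of_ne, mul_zero]
    intro h2
    exact h (Sum.inl_injective (Sum.inr_injective h2))

omit [Fintype σ] [Fintype ι] in
theorem pd_v_vu (i l : ι) [Decidable (i = l)] :
    pderiv (Sum.inr (Sum.inr l)) (monomial (vu i) 1 : MvPolynomial (σ ⊕ (ι ⊕ ι)) k) =
      if i = l then X (Sum.inr (Sum.inl i)) else 0 := by
  rw [vu_mul, Derivation.leibniz, smul_eq_mul, smul_eq_mul]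
  have h1 : pderiv (Sum.inr (Sum.inr l)) (X (Sum.inr (Sum.inl i)) :
      MvPolynomial (σ ⊕ (ι ⊕ ι)) k) = 0 := by
    refine pderiv_X_of_ne ?_
    intro h
    cases Sum.inr_injective h
  rw [h1, mul_zero, add_zero]
  by_cases h : i = l
  · subst h
    rw [if_pos rfl, pderiv_X_self, mul_one]
  · rw [if_neg h, pderiv_X_of_ne, mul_zero]
    intro h2
    exact h (Sum.inr_injective (Sum.inr_injective h2))

omit [Fintype σ] [Fintype ι] in
theorem pd_u_vg (i l : ι) (h : MvPolynomial σ k) :
    pderiv (Sum.inr (Sum.inl l)) ((X (Sum.inr (Sum.inr i)) : MvPolynomial (σ ⊕ (ι ⊕ ι)) k) *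
      rename Sum.inl h) = 0 := by
  rw [Derivation.leibniz, pd_rename, smul_zero, zero_add, smul_eq_mul, pderiv_X_of_ne, mul_zero]
  intro h
  cases Sum.inr_injective h

omit [Fintype σ] [Fintype ι] in
theorem pd_v_vg (i l : ι) [Decidable (i = l)] (h : MvPolynomial σ k) :
    pderiv (Sum.inr (Sum.inr l)) ((X (Sum.inr (Sum.inr i)) : MvPolynomial (σ ⊕ (ι ⊕ ι)) k) *
      rename Sum.inl h) = if i = l then rename Sum.inl h else 0 := by
  rw [Derivation.leibniz, pd_rename, smul_zero, zero_add, smul_eq_mul]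
  by_cases hil : i = l
  · subst hil
    rw [if_pos rfl, pderiv_X_self, mul_one]
  · rw [if_neg hil, pderiv_X_of_ne, mul_zero]
    intro h
    exact hil (Sum.inr_injective (Sum.inr_injective h))

theorem nd_all [CharZero k] [Nonempty ι] {c : k} (hc : c ≠ 0) (a : ι → ℕ) (ha : ∀ i, 0 < a i)
    (g : ι → MvPolynomial σ k) (hg : ∀ i, g i ≠ 0) (hNF : NF g) (W : σ ⊕ (ι ⊕ ι) → ℤ) :
    TorusSmooth (initForm W (GG c a g)) := by
  classical
  rw [initForm_eq]
  set M := (GG c a g).support with hM
  set s := fcz M W with hs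
  have hmem : ∀ i, ∀ β ∈ (g i).support, vx i β ∈ M := by
    intro i β hβ
    rw [hM, mem_support_iff, coeff_vx]
    exact neg_ne_zero.2 (mem_support_iff.1 hβ)
  have hMne : M.Nonempty := by
    obtain ⟨i⟩ := (inferInstance : Nonempty ι)
    obtain ⟨β, hβ⟩ := support_nonempty.2 (hg i)
    exact ⟨_, hmem i β hβ⟩
  have hsne : s.Nonempty := fcz_nonempty hMne W
  have hform := prt_GG c a g s
  have hmemI : ∀ l, pderiv l (prt (GG c a g) s) ∈ Ideal.span ({prt (GG c a g) s} ∪
      Set.range fun j => pderiv j (prt (GG c a g) s)) := fun l =>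
    Ideal.subset_span (Or.inr ⟨l, rfl⟩)
  by_cases hU : ux a ∈ s
  · rw [if_pos hU] at hform
    by_cases hall : ∀ i, vu i ∈ s
    · -- (e) the monomial `c ∏ u^a` lies in the ideal
      have h1 : ∀ l, pderiv (Sum.inr (Sum.inr l)) (prt (GG c a g) s) =
          X (Sum.inr (Sum.inl l)) - rename Sum.inl (prt (g l) (sec g s l)) := by
        intro l
        rw [hform, map_sub, map_add, map_sum, map_sum]
        congr 1
        · rw [pderiv_monomial, ux_v, Nat.cast_zero, mul_zero, map_zero, zero_add,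
            Finset.sum_eq_single l]
          · rw [if_pos (hall l), pd_v_vu, if_pos rfl]
          · intro i _ hi
            rw [if_pos (hall i), pd_v_vu, if_neg hi]
          · intro h
            exact absurd (Finset.mem_univ l) h
        · rw [Finset.sum_eq_single l]
          · rw [pd_v_vg, if_pos rfl]
          · intro i _ hi
            rw [pd_v_vg, if_neg hi]
          · intro h
            exact absurd (Finset.mem_univ l) h
      have h2 : (monomial (ux a) c : MvPolynomial (σ ⊕ (ι ⊕ ι)) k) =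
          prt (GG c a g) s - ∑ l, X (Sum.inr (Sum.inr l)) *
            pderiv (Sum.inr (Sum.inr l)) (prt (GG c a g) s) := by
        have h3 : ∑ l, (X (Sum.inr (Sum.inr l)) : MvPolynomial (σ ⊕ (ι ⊕ ι)) k) *
            pderiv (Sum.inr (Sum.inr l)) (prt (GG c a g) s) =
            ∑ i, monomial (vu i) 1 - ∑ i, X (Sum.inr (Sum.inr i)) *
              rename Sum.inl (prt (g i) (sec g s i)) := by
          rw [← Finset.sum_sub_distrib]
          refine Finset.sum_congr rfl fun l _ => ?_
          rw [h1 l, vu_mul]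
          ring
        rw [h3, hform]
        have h4 : ∑ i, (if vu i ∈ s then (monomial (vu i) 1 : MvPolynomial (σ ⊕ (ι ⊕ ι)) k)
            else 0) = ∑ i, monomial (vu i) 1 :=
          Finset.sum_congr rfl fun i _ => if_pos (hall i)
        rw [h4]
        ring
      refine torusSmooth_of_monomial (ux a) hc ?_
      rw [h2]
      refine Ideal.sub_mem _ (Ideal.subset_span (Or.inl rfl)) (Ideal.sum_mem _ fun l _ => ?_)
      exact Ideal.mul_mem_left _ _ (hmemI _)
    · -- (d)
      push Not at hall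
      obtain ⟨l, hl⟩ := hall
      have h1 : pderiv (Sum.inr (Sum.inl l)) (prt (GG c a g) s) =
          monomial (ux a - Finsupp.single (Sum.inr (Sum.inl l)) 1) (c * (a l : k)) := by
        rw [hform, map_sub, map_add, map_sum, map_sum, pderiv_monomial, ux_u]
        have h2 : ∑ i, pderiv (Sum.inr (Sum.inl l)) (if vu i ∈ s then
            (monomial (vu i) 1 : MvPolynomial (σ ⊕ (ι ⊕ ι)) k) else 0) = 0 := by
          refine Finset.sum_eq_zero fun i _ => ?_
          split_ifs with hi
          · rw [pd_u_vu, if_neg]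
            rintro rfl
            exact hl hi
          · rw [map_zero]
        rw [h2, Finset.sum_eq_zero (fun i _ => pd_u_vg i l _), add_zero, sub_zero]
      refine torusSmooth_of_monomial (ux a - Finsupp.single (Sum.inr (Sum.inl l)) 1)
        (u := c * (a l : k)) (mul_ne_zero hc (Nat.cast_ne_zero.2 (ha l).ne')) ?_
      rw [← h1]
      exact hmemI _
  · rw [if_neg hU, zero_add] at hform
    by_cases hex : ∃ i, vu i ∈ s
    · -- (b)
      obtain ⟨l, hl⟩ := hex
      have h1 : pderiv (Sum.inr (Sum.inl l)) (prt (GG c a g) s) =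
          monomial (Finsupp.single (Sum.inr (Sum.inr l)) 1) 1 := by
        rw [hform, map_sub, map_sum, map_sum, Finset.sum_eq_single l]
        · rw [if_pos hl, pd_u_vu, if_pos rfl, Finset.sum_eq_zero (fun i _ => pd_u_vg i l _),
            sub_zero]
          rfl
        · intro i _ hi
          split_ifs
          · rw [pd_u_vu, if_neg hi]
          · rw [map_zero]
        · intro h
          exact absurd (Finset.mem_univ l) h
      refine torusSmooth_of_monomial (Finsupp.single (Sum.inr (Sum.inr l)) 1)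
        (one_ne_zero (α := k)) ?_
      rw [← h1]
      exact hmemI _
    · -- (c)
      push Not at hex
      have h1 : ∑ i, (if vu i ∈ s then (monomial (vu i) 1 : MvPolynomial (σ ⊕ (ι ⊕ ι)) k)
          else 0) = 0 := Finset.sum_eq_zero fun i _ => if_neg (hex i)
      rw [h1, zero_sub] at hform
      set J : Finset ι := Finset.univ.filter fun i => (sec g s i).Nonempty with hJ
      have h2 : ∑ i, (X (Sum.inr (Sum.inr i)) : MvPolynomial (σ ⊕ (ι ⊕ ι)) k) *
          rename Sum.inl (prt (g i) (sec g s i)) =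
          ∑ i ∈ J, X (Sum.inr (Sum.inr i)) * rename Sum.inl
            (initForm (fun l => W (Sum.inl l)) (g i)) := by
        rw [← Finset.sum_subset (Finset.subset_univ J)]
        · refine Finset.sum_congr rfl fun i hi => ?_
          congr 2
          rw [initForm_eq]
          congr 1
          obtain ⟨β0, hβ0⟩ := (Finset.mem_filter.1 hi).2
          unfold sec at hβ0 ⊢
          rw [Finset.mem_filter] at hβ0
          have hb0 := (mem_fcz.1 hβ0.2).2
          ext β
          rw [Finset.mem_filter]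
          constructor
          · rintro ⟨h3, h4⟩
            refine mem_fcz.2 ⟨h3, fun γ hγ => ?_⟩
            have h5 := (mem_fcz.1 h4).2 _ (hmem i γ hγ)
            rw [wgt_vx, wgt_vx] at h5
            linarith
          · intro h6
            obtain ⟨h3, h4⟩ := mem_fcz.1 h6
            refine ⟨h3, mem_fcz.2 ⟨hmem i β h3, fun γ hγ => ?_⟩⟩
            refine le_trans ?_ (hb0 γ hγ)
            rw [wgt_vx, wgt_vx]
            have := h4 β0 hβ0.1
            linarith
        · intro i _ hi
          have h3 : sec g s i = ∅ := by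
            rw [← Finset.not_nonempty_iff_eq_empty]
            intro h4
            exact hi (Finset.mem_filter.2 ⟨Finset.mem_univ i, h4⟩)
          rw [h3, prt_empty, map_zero, mul_zero]
      have hJne : J.Nonempty := by
        by_contra hcon
        rw [Finset.not_nonempty_iff_eq_empty] at hcon
        rw [h2, hcon, Finset.sum_empty, neg_zero] at hform
        have h3 : (prt (GG c a g) s).support = s :=
          H91.support_prt _ _ (fun α hα => (mem_fcz.1 hα).1)
        rw [hform, support_zero] at h3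
        rw [← h3] at hsne
        exact Finset.not_nonempty_empty hsne
      rw [hform, h2]
      have h3 : ∑ i ∈ J, (X (Sum.inr (Sum.inr i)) : MvPolynomial (σ ⊕ (ι ⊕ ι)) k) *
          rename Sum.inl (initForm (fun l => W (Sum.inl l)) (g i)) =
          rename (Sum.map id Sum.inr) (∑ i ∈ J, (X (Sum.inr i) : MvPolynomial (σ ⊕ ι) k) *
            rename Sum.inl (initForm (fun l => W (Sum.inl l)) (g i))) := by
        rw [map_sum]
        refine Finset.sum_congr rfl fun i _ => ?_
        rw [map_mul, rename_X, rename_rename]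
        rfl
      rw [h3]
      refine ts_neg (ts_rename _ ?_ (hNF _ J hJne))
      exact Function.Injective.sumMap Function.injective_id Sum.inr_injective

end nd

end Pool.Agent.ISO.H58
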