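import Pool.Agent.Helper7_NDR.CID
import Pool.Agent.Helper99_NDR.CDV
import Pool.Agent.Helper30_NDR.DEV
import Pool.Agent.Helper30_Simp.Defs

/-!
# Squad ISO, block B (helper58): Sard for one coefficient

`A + t x^α` is smooth in the torus for all but finitely many `t`.
-/

set_option autoImplicit false

namespace Pool.Agent.ISO.H58

open MvPolynomial Pool.Agent.Helper30_Simp

section mono

variable {k σ : Type} [Field k] [Fintype σ]

theorem prod_mem_of_monomial (J : Ideal (MvPolynomial σ k)) (α : σ →₀ ℕ) {u : k} (hu : u ≠ 0)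
    (h : monomial α u ∈ J.radical) : ∏ i, X i ∈ J.radical := by
  classical
  have h1 : (∏ i, X i : MvPolynomial σ k) ^ (∑ i, α i) ∈ J.radical := by
    have h2 : (∏ i, X i : MvPolynomial σ k) ^ (∑ i, α i) =
        monomial α u * (C u⁻¹ * ∏ i, X i ^ ((∑ j, α j) - α i)) := by
      rw [MvPolynomial.monomial_eq, Finsupp.prod_fintype _ _ (fun i => pow_zero _)]
      have h3 : (C u * ∏ i, (X i : MvPolynomial σ k) ^ α i) *
          (C u⁻¹ * ∏ i, X i ^ ((∑ j, α j) - α i)) =
          (C u * C u⁻¹) * ∏ i, ((X i : MvPolynomial σ k) ^ α i * X i ^ ((∑ j, α j) - α i)) := by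
        rw [Finset.prod_mul_distrib]
        ring
      rw [h3, ← C_mul, mul_inv_cancel₀ hu, C_1, one_mul, ← Finset.prod_pow]
      refine Finset.prod_congr rfl fun i _ => ?_
      rw [← pow_add]
      congr 1
      have : α i ≤ ∑ j, α j := Finset.single_le_sum (fun j _ => Nat.zero_le _) (Finset.mem_univ i)
      omega
    rw [h2]
    exact Ideal.mul_mem_right _ _ h
  exact (Ideal.radical_isRadical J) ⟨_, h1⟩

/-- if the ideal of the singular zeros contains a monomial -/
theorem torusSmooth_of_monomial {g : MvPolynomial σ k} (α : σ →₀ ℕ) {u : k} (hu : u ≠ 0)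
    (h : monomial α u ∈ Ideal.span ({g} ∪ Set.range fun j => pderiv j g)) : TorusSmooth g :=
  prod_mem_of_monomial _ α hu (Ideal.le_radical h)

end mono

theorem exists_der (k K : Type) [Field k] [Field K] [Algebra (Polynomial k) K]
    [IsFractionRing (Polynomial k) K] :
    ∃ δ : Derivation ℤ K K, ∀ p : Polynomial k,
      δ (algebraMap (Polynomial k) K p) = algebraMap (Polynomial k) K (Polynomial.derivative p) := by
  obtain ⟨D', h1, h2⟩ := Pool.Agent.NDR.H30D.der_aux k (Polynomial k) K Polynomial.derivative'
  refine ⟨Derivation.mk' D'.toIntLinearMap (fun x y => ?_), fun p => ?_⟩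
  · change D' (x * y) = x • D' y + y • D' x
    rw [h2, smul_eq_mul, smul_eq_mul]
  · change D' _ = _
    rw [h1]
    rfl

section sard

variable {k σ : Type} [Field k] [CharZero k] [Fintype σ]

attribute [local instance] MvPolynomial.algebraMvPolynomial

theorem sard_aux (K : Type) [Field K] [Algebra (Polynomial k) K] [IsFractionRing (Polynomial k) K]
    (A : MvPolynomial σ k) (α : σ →₀ ℕ) :
    {t : k | ¬ TorusSmooth (A + monomial α t)}.Finite := by
  classical
  obtain ⟨δ, hδ⟩ := exists_der k K
  -- the universal polynomial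
  set G0 : MvPolynomial σ (Polynomial k) :=
    MvPolynomial.map Polynomial.C A + monomial α Polynomial.X with hG0
  set I0 : Ideal (MvPolynomial σ (Polynomial k)) :=
    Ideal.span ({G0} ∪ Set.range fun l => pderiv l G0) with hI0
  set G : MvPolynomial σ K :=
    MvPolynomial.map (algebraMap (Polynomial k) K) G0 with hG
  have hmap : Ideal.map (algebraMap (MvPolynomial σ (Polynomial k))
      (MvPolynomial σ K)) I0 =
      Ideal.span ({G} ∪ Set.range fun l => pderiv l G) := by
    rw [hI0, Ideal.map_span, Set.image_union, Set.image_singleton, ← Set.range_comp]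
    congr 2
    ext l
    simp only [Set.mem_range, Function.comp_apply]
    constructor
    · rintro ⟨i, rfl⟩
      exact ⟨i, MvPolynomial.pderiv_map⟩
    · rintro ⟨i, rfl⟩
      exact ⟨i, MvPolynomial.pderiv_map.symm⟩
  have hchar : CharZero K :=
    charZero_of_injective_algebraMap
      (IsFractionRing.injective (Polynomial k) K)
  have hcid := Pool.Agent.NDR.H7.cid Pool.Agent.NDR.H99.cdv σ K δ G
  have hcf : Pool.Agent.NDR.cfD δ G = monomial α 1 := by
    ext β
    unfold Pool.Agent.NDR.cfD
    rw [coeff_sum]
    have h1 : ∑ γ ∈ G.support, coeff β (monomial γ (δ (coeff γ G))) = δ (coeff β G) := by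
      simp only [coeff_monomial]
      by_cases hβ : β ∈ G.support
      · rw [Finset.sum_eq_single β]
        · rw [if_pos rfl]
        · intro b _ hb
          rw [if_neg hb]
        · intro h
          exact absurd hβ h
      · rw [Finset.sum_eq_zero, notMem_support_iff.1 hβ, map_zero]
        intro b hb
        rw [if_neg]
        rintro rfl
        exact hβ hb
    rw [h1, hG, coeff_map, hδ, hG0, coeff_add, coeff_map, coeff_monomial, coeff_monomial,
      Polynomial.derivative_add, Polynomial.derivative_C, zero_add]
    split_ifs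
    · rw [Polynomial.derivative_X, map_one]
    · rw [Polynomial.derivative_zero, map_zero]
  rw [hcf, ← hmap] at hcid
  obtain ⟨n, hn⟩ := hcid
  have h2 : (monomial α (1 : K)) ^ n =
      algebraMap (MvPolynomial σ (Polynomial k)) (MvPolynomial σ K)
        ((monomial α 1) ^ n) := by
    rw [map_pow]
    congr 1
    change _ = MvPolynomial.map _ _
    rw [map_monomial, RingHom.map_one]
  rw [h2, IsLocalization.algebraMap_mem_map_algebraMap_iff
    ((nonZeroDivisors (Polynomial k)).map (C (σ := σ)))] at hn
  obtain ⟨m, hm, hmn⟩ := hn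
  obtain ⟨q, hq, rfl⟩ := hm
  have hq0 : q ≠ 0 := nonZeroDivisors.ne_zero hq
  refine (q.roots.toFinset.finite_toSet).subset ?_
  intro t ht
  by_contra hroot
  apply ht
  have hqt : q.eval t ≠ 0 := by
    intro h
    apply hroot
    rw [Finset.mem_coe, Multiset.mem_toFinset, Polynomial.mem_roots hq0]
    exact h
  -- specialize
  have hev : MvPolynomial.map (Polynomial.evalRingHom t) G0 = A + monomial α t := by
    rw [hG0, map_add, map_map, map_monomial]
    congr 1
    · have : (Polynomial.evalRingHom t).comp Polynomial.C = RingHom.id k := by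
        ext x
        simp
      rw [this, map_id]
    · simp
  have hle : Ideal.map (MvPolynomial.map (Polynomial.evalRingHom t)) I0 ≤
      Ideal.span ({A + monomial α t} ∪ Set.range fun l => pderiv l (A + monomial α t)) := by
    rw [hI0, Ideal.map_span, Ideal.span_le]
    rintro _ ⟨y, hy, rfl⟩
    rcases hy with hy | ⟨l, rfl⟩
    · rw [Set.mem_singleton_iff.1 hy, hev]
      exact Ideal.subset_span (Or.inl rfl)
    · have : MvPolynomial.map (Polynomial.evalRingHom t) (pderiv l G0) =
          pderiv l (A + monomial α t) := by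
        rw [← hev]
        exact MvPolynomial.pderiv_map.symm
      change MvPolynomial.map (Polynomial.evalRingHom t) (pderiv l G0) ∈ _
      rw [this]
      exact Ideal.subset_span (Or.inr ⟨l, rfl⟩)
  have h3 := hle (Ideal.mem_map_of_mem _ hmn)
  rw [map_mul, map_pow, map_C, map_monomial] at h3
  have h4 : C (Polynomial.evalRingHom t q) * (monomial α (Polynomial.evalRingHom t 1)) ^ n =
      (monomial (n • α) (q.eval t) : MvPolynomial σ k) := by
    rw [RingHom.map_one, monomial_pow, one_pow, C_mul_monomial, mul_one]
    rfl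
  rw [h4] at h3
  exact torusSmooth_of_monomial _ hqt h3

theorem sard (A : MvPolynomial σ k) (α : σ →₀ ℕ) :
    {t : k | ¬ TorusSmooth (A + monomial α t)}.Finite :=
  sard_aux (FractionRing (Polynomial k)) A α

end sard

end Pool.Agent.ISO.H58
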