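import Pool.Agent.Helper58_ISO.Stab
import Pool.Agent.ISO.Defs

/-!
# Squad ISO, block B (helper58): simple normal crossings outside the origin
-/

set_option autoImplicit false

namespace Pool.Agent.ISO.H58

open MvPolynomial Pool.Agent.Helper30_Simp Pool.Agent.NDR Pool.Agent.Helper91_NDR
  Pool.Agent.Helper32_OMP

/-- a polynomial which is smooth in the torus has no singular zero in the torus -/
theorem no_sing {τ k : Type} [Field k] [Algebra k ℂ] [Fintype τ] {h : MvPolynomial τ k}
    (hs : TorusSmooth h) (z : τ → ℂ) (hz : ∀ l, z l ≠ 0) (h0 : aeval z h = 0)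
    (h1 : ∀ l, aeval z (pderiv l h) = 0) : False := by
  obtain ⟨n, hn⟩ := hs
  have hle : Ideal.span ({h} ∪ Set.range fun j => pderiv j h) ≤
      RingHom.ker (aeval z : MvPolynomial τ k →ₐ[k] ℂ) := by
    rw [Ideal.span_le]
    rintro x (hx | ⟨j, rfl⟩)
    · rw [Set.mem_singleton_iff.1 hx]
      exact h0
    · exact h1 j
  have h2 := hle hn
  rw [RingHom.mem_ker, map_pow, map_prod] at h2
  simp only [aeval_X] at h2
  exact pow_ne_zero _ (Finset.prod_ne_zero_iff.2 fun i _ => hz i) h2

section rho

variable {σ k : Type} [Field k] [Fintype σ]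

open scoped Classical in
/-- restriction to the coordinate subspace of the `l` with `z l ≠ 0` -/
noncomputable def rho (z : σ → ℂ) : MvPolynomial σ k →ₐ[k] MvPolynomial σ k :=
  aeval fun l => if z l = 0 then 0 else X l

theorem rho_pd_zero (z : σ → ℂ) (l : σ) (hl : z l = 0) (h : MvPolynomial σ k) :
    pderiv l (rho z h) = 0 := by
  classical
  induction h using MvPolynomial.induction_on with
  | C a =>
    have : rho z (C a : MvPolynomial σ k) = C a := (rho z).commutes a
    rw [this, pderiv_C]
  | add p q hp hq => rw [map_add, map_add, hp, hq, add_zero]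
  | mul_X p i hp =>
    rw [map_mul, Derivation.leibniz, hp, smul_zero, add_zero, smul_eq_mul]
    have : rho z (X i : MvPolynomial σ k) = if z i = 0 then 0 else X i := by
      unfold rho
      rw [aeval_X]
    rw [this]
    split_ifs with hi
    · rw [map_zero, mul_zero]
    · rw [pderiv_X_of_ne, mul_zero]
      rintro rfl
      exact hi hl

theorem rho_pd (z : σ → ℂ) (l : σ) (hl : z l ≠ 0) (h : MvPolynomial σ k) :
    pderiv l (rho z h) = rho z (pderiv l h) := by
  classical
  induction h using MvPolynomial.induction_on with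
  | C a =>
    have : rho z (C a : MvPolynomial σ k) = C a := (rho z).commutes a
    rw [this, pderiv_C, map_zero]
  | add p q hp hq => rw [map_add, map_add, hp, hq, map_add, map_add]
  | mul_X p i hp =>
    rw [map_mul, Derivation.leibniz, Derivation.leibniz, hp, map_add, smul_eq_mul, smul_eq_mul,
      smul_eq_mul, smul_eq_mul, map_mul, map_mul]
    congr 2
    have : rho z (X i : MvPolynomial σ k) = if z i = 0 then 0 else X i := by
      unfold rho
      rw [aeval_X]
    rw [this]
    split_ifs with hi
    · rw [map_zero, pderiv_X_of_ne, map_zero]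
      rintro rfl
      exact hl hi
    · by_cases hil : i = l
      · subst hil
        rw [pderiv_X_self, map_one]
      · rw [pderiv_X_of_ne (Ne.symm (Ne.symm hil)), map_zero]

open scoped Classical in
/-- the torus point -/
noncomputable def zt (z : σ → ℂ) (l : σ) : ℂ := if z l = 0 then 1 else z l

theorem zt_ne (z : σ → ℂ) (l : σ) : zt z l ≠ 0 := by
  unfold zt
  split_ifs with h
  · exact one_ne_zero
  · exact h

theorem aeval_rho [Algebra k ℂ] (z : σ → ℂ) (h : MvPolynomial σ k) :
    aeval (zt z) (rho z h) = aeval z h := by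
  classical
  have h1 : (aeval (zt z) : MvPolynomial σ k →ₐ[k] ℂ).comp (rho z) = aeval z := by
    apply MvPolynomial.algHom_ext
    intro l
    rw [AlgHom.comp_apply, aeval_X]
    unfold rho
    rw [aeval_X]
    split_ifs with hl
    · rw [map_zero, hl]
    · rw [aeval_X]
      unfold zt
      rw [if_neg hl]
  exact DFunLike.congr_fun h1 h

open scoped Classical in
/-- the weight `1` on the vanishing coordinates -/
noncomputable def wz (z : σ → ℂ) (l : σ) : ℤ := if z l = 0 then 1 else 0

theorem wz_nonneg (z : σ → ℂ) (α : σ →₀ ℕ) : 0 ≤ wgt (wz z) α := by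
  unfold wgt wz
  refine Finset.sum_nonneg fun l _ => ?_
  split_ifs
  · simp
  · simp

theorem wz_zero (z : σ → ℂ) (α : σ →₀ ℕ) : wgt (wz z) α = 0 ↔ ∀ l, z l = 0 → α l = 0 := by
  unfold wgt wz
  rw [Finset.sum_eq_zero_iff_of_nonneg]
  · constructor
    · intro h l hl
      have h1 := h l (Finset.mem_univ l)
      rw [if_pos hl, one_mul] at h1
      exact_mod_cast h1
    · intro h l _
      split_ifs with hl
      · rw [h l hl]
        simp
      · simp
  · intro l _
    split_ifs
    · simp
    · simp

theorem rho_monomial (z : σ → ℂ) (α : σ →₀ ℕ) (c : k) [Decidable (wgt (wz z) α = 0)] :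
    rho z (monomial α c : MvPolynomial σ k) = if wgt (wz z) α = 0 then monomial α c else 0 := by
  classical
  unfold rho
  rw [aeval_monomial, Finsupp.prod_fintype _ _ (fun i => pow_zero _)]
  split_ifs with h
  · rw [wz_zero] at h
    rw [monomial_eq, Finsupp.prod_fintype _ _ (fun i => pow_zero _)]
    congr 1
    refine Finset.prod_congr rfl fun l _ => ?_
    split_ifs with hl
    · rw [h l hl, pow_zero, pow_zero]
    · rfl
  · rw [wz_zero] at h
    push Not at h
    obtain ⟨l, hl, hl2⟩ := h
    rw [Finset.prod_eq_zero (Finset.mem_univ l), mul_zero]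
    rw [if_pos hl, zero_pow hl2]

/-- the initial form for the weight `wz` is the restriction -/
theorem init_wz (z : σ → ℂ) (g : MvPolynomial σ k)
    (h : ∃ β ∈ g.support, wgt (wz z) β = 0) : initForm (wz z) g = rho z g := by
  classical
  obtain ⟨β, hβ, hβ0⟩ := h
  have h1 : rho z g = ∑ α ∈ g.support.filter (fun α => wgt (wz z) α = 0),
      monomial α (coeff α g) := by
    conv_lhs => rw [← g.support_sum_monomial_coeff]
    rw [map_sum, Finset.sum_filter]
    exact Finset.sum_congr rfl fun α _ => rho_monomial z α _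
  rw [h1]
  unfold initForm
  refine Finset.sum_congr ?_ fun _ _ => rfl
  ext α
  rw [Finset.mem_filter, Finset.mem_filter]
  constructor
  · rintro ⟨h2, h3⟩
    refine ⟨h2, le_antisymm ?_ (wz_nonneg z α)⟩
    rw [← hβ0]
    exact h3 β hβ
  · rintro ⟨h2, h3⟩
    refine ⟨h2, fun γ _ => ?_⟩
    rw [h3]
    exact wz_nonneg z γ

end rho

theorem pd_rename' {σ ι k : Type} [Field k] (j : ι) (h : MvPolynomial σ k) :
    pderiv (Sum.inr j) (rename Sum.inl h : MvPolynomial (σ ⊕ ι) k) = 0 := by
  classical
  refine pderiv_eq_zero_of_notMem_vars fun hm => ?_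
  have h1 := vars_rename (Sum.inl : σ → σ ⊕ ι) h hm
  rw [Finset.mem_image] at h1
  obtain ⟨x, _, hx⟩ := h1
  cases hx

/-- **SNC outside the origin.** -/
theorem snc {σ ι k : Type} [Field k] [Algebra k ℂ] [Fintype σ] [Fintype ι]
    (g : ι → MvPolynomial σ k) (hNF : NF g) (z : σ → ℂ)
    (hz : ∀ i, ∃ β ∈ (g i).support, wgt (wz z) β = 0) :
    SncAt (fun i => MvPolynomial.map (algebraMap k ℂ) (g i)) z := by
  classical
  unfold SncAt
  have hev : ∀ h : MvPolynomial σ k, eval z (MvPolynomial.map (algebraMap k ℂ) h) = aeval z h := by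
    intro h
    rw [eval_map]
    rfl
  rw [Fintype.linearIndependent_iff]
  intro μ hμ
  by_contra hcon
  push Not at hcon
  obtain ⟨i0, hi0⟩ := hcon
  set lam : ι → ℂ := fun i => if h : eval z (MvPolynomial.map (algebraMap k ℂ) (g i)) = 0 then
    μ ⟨i, h⟩ else 0 with hlam
  have hl1 : ∀ i : {i // eval z (MvPolynomial.map (algebraMap k ℂ) (g i)) = 0},
      lam i = μ i := by
    intro i
    rw [hlam]
    dsimp only
    rw [dif_pos i.2]
  have hl0 : ∀ i, lam i ≠ 0 → aeval z (g i) = 0 := by
    intro i hi
    rw [← hev]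
    by_contra h
    apply hi
    rw [hlam]
    dsimp only
    rw [dif_neg h]
  have hrel : ∀ l, ∑ i, lam i * aeval z (pderiv l (g i)) = 0 := by
    intro l
    have h1 := congrFun hμ l
    rw [Finset.sum_apply, Pi.zero_apply] at h1
    rw [← h1]
    rw [← Finset.sum_filter_of_ne (p := fun i =>
      eval z (MvPolynomial.map (algebraMap k ℂ) (g i)) = 0)]
    · rw [Finset.sum_subtype (p := fun i =>
        eval z (MvPolynomial.map (algebraMap k ℂ) (g i)) = 0)]
      · refine Finset.sum_congr rfl fun i _ => ?_
        rw [hl1 i, Pi.smul_apply, smul_eq_mul, pderiv_map, hev]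
      · intro x
        rw [Finset.mem_filter]
        exact ⟨fun h => h.2, fun h => ⟨Finset.mem_univ x, h⟩⟩
    · intro i _ hi
      rw [hev]
      exact hl0 i (left_ne_zero_of_mul hi)
  set J : Finset ι := Finset.univ.filter fun i => lam i ≠ 0 with hJ
  have hJne : J.Nonempty := ⟨i0, Finset.mem_filter.2 ⟨Finset.mem_univ _, by rw [hl1 i0]; exact hi0⟩⟩
  have hts := hNF (wz z) J hJne
  have hinit : ∀ i, initForm (wz z) (g i) = rho z (g i) := fun i => init_wz z (g i) (hz i)
  simp only [hinit] at hts
  set L : MvPolynomial (σ ⊕ ι) k := ∑ i ∈ J, (X (Sum.inr i) : MvPolynomial (σ ⊕ ι) k) *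
    rename Sum.inl (rho z (g i)) with hL
  set Z : σ ⊕ ι → ℂ := Sum.elim (zt z) (fun i => if lam i = 0 then 1 else lam i) with hZ
  have hZr : ∀ h : MvPolynomial σ k, aeval Z (rename Sum.inl h : MvPolynomial (σ ⊕ ι) k) =
      aeval (zt z) h := by
    intro h
    rw [aeval_rename]
    rfl
  have hZi : ∀ i ∈ J, aeval Z (X (Sum.inr i) : MvPolynomial (σ ⊕ ι) k) = lam i := by
    intro i hi
    rw [aeval_X, hZ]
    change (if lam i = 0 then 1 else lam i) = lam i
    rw [if_neg (Finset.mem_filter.1 hi).2]
  refine no_sing hts Z ?_ ?_ ?_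
  · rintro (l | i)
    · exact zt_ne z l
    · change (if lam i = 0 then 1 else lam i) ≠ 0
      split_ifs with h
      · exact one_ne_zero
      · exact h
  · rw [hL, map_sum]
    refine Finset.sum_eq_zero fun i hi => ?_
    rw [map_mul, hZr, aeval_rho, hl0 i (Finset.mem_filter.1 hi).2, mul_zero]
  · rintro (l | j)
    · rw [hL, map_sum, map_sum]
      have h1 : ∀ i ∈ J, aeval Z (pderiv (Sum.inl l) ((X (Sum.inr i) : MvPolynomial (σ ⊕ ι) k) *
          rename Sum.inl (rho z (g i)))) = lam i * aeval (zt z) (pderiv l (rho z (g i))) := by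
        intro i hi
        rw [Derivation.leibniz, pderiv_rename Sum.inl_injective, pderiv_X_of_ne (by
          intro h
          cases h), smul_zero, add_zero, smul_eq_mul, map_mul, hZi i hi, hZr]
      rw [Finset.sum_congr rfl h1]
      by_cases hl : z l = 0
      · refine Finset.sum_eq_zero fun i _ => ?_
        rw [rho_pd_zero z l hl, map_zero, mul_zero]
      · have h2 : ∑ i ∈ J, lam i * aeval (zt z) (pderiv l (rho z (g i))) =
            ∑ i, lam i * aeval z (pderiv l (g i)) := by
          rw [← Finset.sum_subset (Finset.subset_univ J)]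
          · refine Finset.sum_congr rfl fun i _ => ?_
            rw [rho_pd z l hl, aeval_rho]
          · intro i _ hi
            have : lam i = 0 := by
              by_contra h
              exact hi (Finset.mem_filter.2 ⟨Finset.mem_univ i, h⟩)
            rw [this, zero_mul]
        rw [h2, hrel l]
    · rw [hL, map_sum, map_sum]
      refine Finset.sum_eq_zero fun i hi => ?_
      rw [Derivation.leibniz, pd_rename', smul_zero, zero_add, smul_eq_mul, map_mul, hZr,
        aeval_rho, hl0 i (Finset.mem_filter.1 hi).2, zero_mul]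

end Pool.Agent.ISO.H58
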