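import Pool.Agent.Helper58_ISO.Nd
import Pool.Agent.Helper8_CR.Defs

/-!
# Squad ISO, block B (helper58): `c ∏ u_i^(a_i) + ∑ v_i (u_i - g_i)` and `c ∏ g_i^(a_i) + ∑ u_i v_i`
-/

set_option autoImplicit false

namespace Pool.Agent.ISO.H58

open MvPolynomial Pool.Agent.Helper8_CR

section iso

variable {σ ι k : Type} [Field k] [Fintype ι]

theorem exists_q (c : k) (a : ι → ℕ) (g : ι → MvPolynomial σ k) :
    ∃ q : ι → MvPolynomial (σ ⊕ ι) k,
      C c * ∏ i, (X (Sum.inr i) + rename Sum.inl (g i)) ^ a i =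
        C c * ∏ i, rename Sum.inl (g i) ^ a i + ∑ i, q i * X (Sum.inr i) := by
  have h1 : C c * ∏ i, (X (Sum.inr i) + rename Sum.inl (g i)) ^ a i -
      C c * ∏ i, (rename Sum.inl (g i) : MvPolynomial (σ ⊕ ι) k) ^ a i ∈
      Ideal.span (Set.range fun i : ι => (X (Sum.inr i) : MvPolynomial (σ ⊕ ι) k)) := by
    rw [← Ideal.Quotient.eq, map_mul, map_mul, map_prod, map_prod]
    congr 1
    refine Finset.prod_congr rfl fun i _ => ?_
    rw [map_pow, map_pow, map_add]
    congr 1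
    have h2 : Ideal.Quotient.mk (Ideal.span (Set.range fun i : ι =>
        (X (Sum.inr i) : MvPolynomial (σ ⊕ ι) k))) (X (Sum.inr i)) = 0 := by
      rw [Ideal.Quotient.eq_zero_iff_mem]
      exact Ideal.subset_span ⟨i, rfl⟩
    rw [h2, zero_add]
  rw [Ideal.mem_span_range_iff_exists_fun] at h1
  obtain ⟨q, hq⟩ := h1
  refine ⟨q, ?_⟩
  rw [hq]
  ring

/-- the substitution `u_i ↦ u_i + g_i`, `v_i ↦ v_i - q_i(y, u)` -/
noncomputable def Phi (g : ι → MvPolynomial σ k) (q : ι → MvPolynomial (σ ⊕ ι) k) :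
    MvPolynomial (σ ⊕ (ι ⊕ ι)) k →ₐ[k] MvPolynomial (σ ⊕ (ι ⊕ ι)) k :=
  aeval (Sum.elim (fun l => X (Sum.inl l)) (Sum.elim
    (fun i => X (Sum.inr (Sum.inl i)) + rename Sum.inl (g i))
    (fun i => X (Sum.inr (Sum.inr i)) - rename (Sum.map id Sum.inl) (q i))))

/-- the substitution `u_i ↦ u_i - g_i` in polynomials in `y`, `u` -/
noncomputable def Tht (g : ι → MvPolynomial σ k) :
    MvPolynomial (σ ⊕ ι) k →ₐ[k] MvPolynomial (σ ⊕ (ι ⊕ ι)) k :=
  aeval (Sum.elim (fun l => X (Sum.inl l))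
    (fun i => X (Sum.inr (Sum.inl i)) - rename Sum.inl (g i)))

/-- the inverse substitution -/
noncomputable def Psi (g : ι → MvPolynomial σ k) (q : ι → MvPolynomial (σ ⊕ ι) k) :
    MvPolynomial (σ ⊕ (ι ⊕ ι)) k →ₐ[k] MvPolynomial (σ ⊕ (ι ⊕ ι)) k :=
  aeval (Sum.elim (fun l => X (Sum.inl l)) (Sum.elim
    (fun i => X (Sum.inr (Sum.inl i)) - rename Sum.inl (g i))
    (fun i => X (Sum.inr (Sum.inr i)) + Tht g (q i))))

variable (g : ι → MvPolynomial σ k) (q : ι → MvPolynomial (σ ⊕ ι) k)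

omit [Fintype ι] in
theorem Phi_y (l : σ) : Phi g q (X (Sum.inl l)) = X (Sum.inl l) := by
  unfold Phi
  rw [aeval_X]
  rfl

omit [Fintype ι] in
theorem Phi_u (i : ι) : Phi g q (X (Sum.inr (Sum.inl i))) =
    X (Sum.inr (Sum.inl i)) + rename Sum.inl (g i) := by
  unfold Phi
  rw [aeval_X]
  rfl

omit [Fintype ι] in
theorem Phi_v (i : ι) : Phi g q (X (Sum.inr (Sum.inr i))) =
    X (Sum.inr (Sum.inr i)) - rename (Sum.map id Sum.inl) (q i) := by
  unfold Phi
  rw [aeval_X]
  rfl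

omit [Fintype ι] in
theorem Psi_y (l : σ) : Psi g q (X (Sum.inl l)) = X (Sum.inl l) := by
  unfold Psi
  rw [aeval_X]
  rfl

omit [Fintype ι] in
theorem Psi_u (i : ι) : Psi g q (X (Sum.inr (Sum.inl i))) =
    X (Sum.inr (Sum.inl i)) - rename Sum.inl (g i) := by
  unfold Psi
  rw [aeval_X]
  rfl

omit [Fintype ι] in
theorem Psi_v (i : ι) : Psi g q (X (Sum.inr (Sum.inr i))) =
    X (Sum.inr (Sum.inr i)) + Tht g (q i) := by
  unfold Psi
  rw [aeval_X]
  rfl

omit [Fintype ι] in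
theorem Phi_ren (h : MvPolynomial σ k) : Phi g q (rename Sum.inl h) = rename Sum.inl h := by
  have h1 : (Phi g q).comp (rename Sum.inl) = rename Sum.inl := by
    apply MvPolynomial.algHom_ext
    intro l
    rw [AlgHom.comp_apply, rename_X, Phi_y]
  exact DFunLike.congr_fun h1 h

omit [Fintype ι] in
theorem Psi_ren (h : MvPolynomial σ k) : Psi g q (rename Sum.inl h) = rename Sum.inl h := by
  have h1 : (Psi g q).comp (rename Sum.inl) = rename Sum.inl := by
    apply MvPolynomial.algHom_ext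
    intro l
    rw [AlgHom.comp_apply, rename_X, Psi_y]
  exact DFunLike.congr_fun h1 h

omit [Fintype ι] in
theorem Psi_b (h : MvPolynomial (σ ⊕ ι) k) :
    Psi g q (rename (Sum.map id Sum.inl) h) = Tht g h := by
  have h1 : (Psi g q).comp (rename (Sum.map id Sum.inl)) = Tht g := by
    apply MvPolynomial.algHom_ext
    intro x
    rw [AlgHom.comp_apply, rename_X]
    cases x with
    | inl l =>
      change Psi g q (X (Sum.inl l)) = _
      rw [Psi_y]
      unfold Tht
      rw [aeval_X]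
      rfl
    | inr i =>
      change Psi g q (X (Sum.inr (Sum.inl i))) = _
      rw [Psi_u]
      unfold Tht
      rw [aeval_X]
      rfl
  exact DFunLike.congr_fun h1 h

omit [Fintype ι] in
theorem Phi_tht (h : MvPolynomial (σ ⊕ ι) k) :
    Phi g q (Tht g h) = rename (Sum.map id Sum.inl) h := by
  have h1 : (Phi g q).comp (Tht g) = rename (Sum.map id Sum.inl) := by
    apply MvPolynomial.algHom_ext
    intro x
    rw [AlgHom.comp_apply, rename_X]
    cases x with
    | inl l =>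
      have h2 : Tht g (X (Sum.inl l)) = X (Sum.inl l) := by
        unfold Tht
        rw [aeval_X]
        rfl
      rw [h2, Phi_y]
      rfl
    | inr i =>
      have h2 : Tht g (X (Sum.inr i)) = X (Sum.inr (Sum.inl i)) - rename Sum.inl (g i) := by
        unfold Tht
        rw [aeval_X]
        rfl
      rw [h2, map_sub, Phi_u, Phi_ren]
      change _ = X (Sum.inr (Sum.inl i))
      ring
  exact DFunLike.congr_fun h1 h

/-- the isomorphism -/
noncomputable def PhiE : MvPolynomial (σ ⊕ (ι ⊕ ι)) k ≃ₐ[k] MvPolynomial (σ ⊕ (ι ⊕ ι)) k :=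
  AlgEquiv.ofAlgHom (Phi g q) (Psi g q)
    (by
      apply MvPolynomial.algHom_ext
      intro x
      rw [AlgHom.comp_apply, AlgHom.id_apply]
      rcases x with l | i | i
      · rw [Psi_y, Phi_y]
      · rw [Psi_u, map_sub, Phi_u, Phi_ren]
        ring
      · rw [Psi_v, map_add, Phi_v, Phi_tht]
        ring)
    (by
      apply MvPolynomial.algHom_ext
      intro x
      rw [AlgHom.comp_apply, AlgHom.id_apply]
      rcases x with l | i | i
      · rw [Phi_y, Psi_y]
      · rw [Phi_u, map_add, Psi_u, Psi_ren]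
        ring
      · rw [Phi_v, map_sub, Psi_v, Psi_b]
        ring)

theorem ux_mul (c : k) (a : ι → ℕ) : (monomial (ux a) c : MvPolynomial (σ ⊕ (ι ⊕ ι)) k) =
    C c * ∏ i, X (Sum.inr (Sum.inl i)) ^ a i := by
  classical
  unfold ux
  have h1 : ∀ s : Finset ι, (monomial (∑ i ∈ s, Finsupp.single (Sum.inr (Sum.inl i)) (a i)) c :
      MvPolynomial (σ ⊕ (ι ⊕ ι)) k) = C c * ∏ i ∈ s, X (Sum.inr (Sum.inl i)) ^ a i := by
    intro s
    induction s using Finset.induction_on with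
    | empty => simp
    | insert i s hi ih =>
      rw [Finset.sum_insert hi, Finset.prod_insert hi, mul_left_comm, ← ih, X_pow_eq_monomial,
        monomial_mul, one_mul]
  exact h1 _

theorem stab_iso (c : k) (a : ι → ℕ) :
    ∃ Φ : MvPolynomial (σ ⊕ (ι ⊕ ι)) k ≃ₐ[k] MvPolynomial (σ ⊕ (ι ⊕ ι)) k,
      Φ (GG c a g) = rename Sum.inl (C c * ∏ i, g i ^ a i) +
        ∑ j, X (Sum.inr (Sum.inl j)) * X (Sum.inr (Sum.inr j)) := by
  obtain ⟨q, hq⟩ := exists_q c a g
  refine ⟨PhiE g q, ?_⟩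
  change Phi g q (GG c a g) = _
  unfold GG
  rw [map_sub, map_add, ux_mul, map_mul, map_prod, map_sum, map_sum]
  have hC : Phi g q (C c) = C c := (Phi g q).commutes c
  rw [hC]
  have h1 : ∏ i, Phi g q (X (Sum.inr (Sum.inl i)) ^ a i) =
      ∏ i, (X (Sum.inr (Sum.inl i)) + rename Sum.inl (g i)) ^ a i :=
    Finset.prod_congr rfl fun i _ => by rw [map_pow, Phi_u]
  have h2 := congrArg (rename (Sum.map id Sum.inl) :
    MvPolynomial (σ ⊕ ι) k →ₐ[k] MvPolynomial (σ ⊕ (ι ⊕ ι)) k) hq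
  rw [map_add, map_mul, map_mul, map_prod, map_prod, map_sum, rename_C] at h2
  have h3 : ∀ i, (rename (Sum.map id Sum.inl) : MvPolynomial (σ ⊕ ι) k →ₐ[k]
      MvPolynomial (σ ⊕ (ι ⊕ ι)) k) (rename Sum.inl (g i)) = rename Sum.inl (g i) := by
    intro i
    rw [rename_rename]
    rfl
  simp only [map_pow, map_add, map_mul, rename_X, h3, Sum.map_inr] at h2
  rw [h1, h2, map_mul, rename_C, map_prod]
  simp only [map_pow]
  have h4 : ∑ i, Phi g q (monomial (vu i) 1) -
      ∑ i, Phi g q (X (Sum.inr (Sum.inr i)) * rename Sum.inl (g i)) =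
      ∑ j, X (Sum.inr (Sum.inl j)) * X (Sum.inr (Sum.inr j)) -
      ∑ i, rename (Sum.map id Sum.inl) (q i) * X (Sum.inr (Sum.inl i)) := by
    rw [← Finset.sum_sub_distrib, ← Finset.sum_sub_distrib]
    refine Finset.sum_congr rfl fun i _ => ?_
    rw [vu_mul, map_mul, map_mul, Phi_u, Phi_v, Phi_ren]
    ring
  rw [add_sub_assoc, h4]
  ring

end iso

end Pool.Agent.ISO.H58
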